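import Pool.Agent.Helper29.CPB.Idem

/-! An idempotent `E` of maximal rank in a (non-unital) rational algebra `Y` of operators with
rational traces: `tr (y (1 - E)) = 0` for all `y ∈ Y`. -/

open Polynomial Module

namespace Pool.Agent.Helper64.MAD

variable {F V : Type*} [Field F] [CharZero F] [AddCommGroup V] [Module F V] [FiniteDimensional F V]

lemma poly_mem (Y : AddSubgroup (Module.End F V))
    (hsmul : ∀ (q : ℚ), ∀ y ∈ Y, (q : F) • y ∈ Y) (hmul : ∀ y ∈ Y, ∀ z ∈ Y, y * z ∈ Y)
    (y : Module.End F V) (hy : y ∈ Y) (p : ℚ[X]) :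
    aeval y (p.map (algebraMap ℚ F)) * y ∈ Y := by
  induction p using Polynomial.induction_on' with
  | add p q hp hq =>
    rw [Polynomial.map_add, map_add, add_mul]
    exact Y.add_mem hp hq
  | monomial n a =>
    rw [Polynomial.map_monomial, aeval_monomial]
    have h1 : ∀ k : ℕ, y ^ k * y ∈ Y := by
      intro k
      induction k with
      | zero => simpa using hy
      | succ k ih =>
        rw [pow_succ]
        exact hmul _ ih _ hy
    have h2 : (algebraMap F (Module.End F V)) ((algebraMap ℚ F) a) * y ^ n * y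
        = (a : F) • (y ^ n * y) := by
      rw [mul_assoc, ← Algebra.smul_def]
      simp
    rw [h2]
    exact hsmul _ _ (h1 n)

theorem exists_max_idem (Y : AddSubgroup (Module.End F V))
    (hsmul : ∀ (q : ℚ), ∀ y ∈ Y, (q : F) • y ∈ Y) (hmul : ∀ y ∈ Y, ∀ z ∈ Y, y * z ∈ Y)
    (htr : ∀ y ∈ Y, ∃ q : ℚ, LinearMap.trace F V y = (q : F)) :
    ∃ E ∈ Y, E * E = E ∧ ∀ y ∈ Y, LinearMap.trace F V (y * (1 - E)) = 0 := by
  classical
  -- maximal rank
  have hmax : ∃ E ∈ Y, E * E = E ∧ ∀ E' ∈ Y, E' * E' = E' →
      finrank F (LinearMap.range E') ≤ finrank F (LinearMap.range E) := by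
    have hb : ∀ E' : Module.End F V, finrank F (LinearMap.range E') ≤ finrank F V :=
      fun E' => Submodule.finrank_le _
    let P : ℕ → Prop := fun k => ∃ E ∈ Y, E * E = E ∧ finrank F (LinearMap.range E) = k
    have h0 : P 0 := ⟨0, Y.zero_mem, by simp, by simp⟩
    have hP := Nat.findGreatest_spec (P := P) (Nat.zero_le (finrank F V)) h0
    obtain ⟨E, h1, h2, h3⟩ := hP
    refine ⟨E, h1, h2, fun E' h4 h5 => ?_⟩
    rw [h3]
    exact Nat.le_findGreatest (hb E') ⟨E', h4, h5, rfl⟩
  obtain ⟨E, hE, hEE, hEmax⟩ := hmax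
  refine ⟨E, hE, hEE, fun y hy => ?_⟩
  set z : Module.End F V := (1 - E) * y * (1 - E) with hz
  have hzY : z ∈ Y := by
    have : z = y - E * y - y * E + E * y * E := by rw [hz]; noncomm_ring
    rw [this]
    exact Y.add_mem (Y.sub_mem (Y.sub_mem hy (hmul _ hE _ hy)) (hmul _ hy _ hE))
      (hmul _ (hmul _ hE _ hy) _ hE)
  have hEz : E * z = 0 := by
    rw [hz]
    have : E * ((1 - E) * y * (1 - E)) = (E - E * E) * y * (1 - E) := by noncomm_ring
    rw [this, hEE, sub_self, zero_mul, zero_mul]
  have hzE : z * E = 0 := by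
    rw [hz]
    have : (1 - E) * y * (1 - E) * E = (1 - E) * y * (E - E * E) := by noncomm_ring
    rw [this, hEE, sub_self, mul_zero]
  have hnil : IsNilpotent z := by
    by_contra hn
    have hpow : ∀ k, 1 ≤ k → z ^ k ∈ Y := by
      intro k hk
      induction k, hk using Nat.le_induction with
      | base => simpa using hzY
      | succ k _ ih => rw [pow_succ]; exact hmul _ ih _ hzY
    obtain ⟨e, he1, he2⟩ := Pool.Agent.Helper29.CPB.exists_idem z
      (fun k hk => htr _ (hpow k hk)) hn
    set e' := aeval z (e.map (algebraMap ℚ F)) * z with he'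
    have he'Y : e' ∈ Y := poly_mem Y hsmul hmul z hzY e
    have h1 : e' * E = 0 := by rw [he', mul_assoc, hzE, mul_zero]
    have h2 : E * e' = 0 := by
      have hcomm : e' = z * aeval z (e.map (algebraMap ℚ F)) := by
        rw [he']
        have : aeval z (e.map (algebraMap ℚ F)) * z = z * aeval z (e.map (algebraMap ℚ F)) := by
          have h := map_mul (Polynomial.aeval z) (e.map (algebraMap ℚ F)) X
          have h' := map_mul (Polynomial.aeval z) X (e.map (algebraMap ℚ F))
          rw [aeval_X] at h h'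
          rw [← h, ← h', mul_comm]
        exact this
      rw [hcomm, ← mul_assoc, hEz, zero_mul]
    have h3 : (E + e') * (E + e') = E + e' := by
      have : (E + e') * (E + e') = E * E + E * e' + e' * E + e' * e' := by noncomm_ring
      rw [this, hEE, h1, h2, he1]
      simp
    have h4 := hEmax (E + e') (Y.add_mem hE he'Y) h3
    have h5 := Pool.Agent.Helper29.CPB.trace_idem (E + e') h3
    rw [map_add, Pool.Agent.Helper29.CPB.trace_idem E hEE,
      Pool.Agent.Helper29.CPB.trace_idem e' he1] at h5
    have h6 : finrank F (LinearMap.range E) + finrank F (LinearMap.range e')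
        = finrank F (LinearMap.range (E + e')) := by exact_mod_cast h5
    have h7 : finrank F (LinearMap.range e') = 0 := by omega
    rw [Submodule.finrank_eq_zero] at h7
    exact he2 (LinearMap.range_eq_bot.mp h7)
  have h1 : LinearMap.trace F V (y * (1 - E)) = LinearMap.trace F V z := by
    have h11 : (1 - E) * (1 - E) = 1 - E := by
      have : (1 - E) * (1 - E) = 1 - E - E + E * E := by noncomm_ring
      rw [this, hEE]; simp
    have h12 : y * (1 - E) = (y * (1 - E)) * (1 - E) := by rw [mul_assoc, h11]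
    rw [h12, LinearMap.trace_mul_comm, hz, ← mul_assoc]
  rw [h1]
  exact (LinearMap.isNilpotent_trace_of_isNilpotent hnil).eq_zero

end Pool.Agent.Helper64.MAD
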