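import Mathlib
import Pool.Agent.Helper15.Murre.PTrace
import Pool.Agent.Helper15.Murre.Global

/-!
# Supertraces in homology and partial traces

`str W f` is the supertrace of `H_*(f)`, for `f : M ⟶ M`.
* `str_ptr` : `str (ptr X X M f) = str f`;
* `str_rat` : `str f` is rational (Lefschetz trace formula).
-/

open CategoryTheory MonoidalCategory Limits TensorProduct
open Pool.Agent.Helper15.Murre

universe w v u

namespace Pool.Agent.Helper64.MAD

section frame

variable {F U : Type*} [Field F] [AddCommGroup U] [Module F U]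

lemma trace_frame [FiniteDimensional F U] {ι : Type*} [Fintype ι] (u : ι → U)
    (ψ : ι → U →ₗ[F] F) (h : ∀ x, ∑ j, ψ j x • u j = x) (G : Module.End F U) :
    LinearMap.trace F U G = ∑ j, ψ j (G (u j)) := by
  have h1 : G = ∑ j, (ψ j).smulRight (G (u j)) := by
    ext x
    conv_lhs => rw [← h x]
    simp [map_sum]
  conv_lhs => rw [h1]
  rw [map_sum]
  simp [LinearMap.trace_smulRight]

end frame

variable {C : Type u} [Category.{v} C] [Preadditive C] [Linear ℚ C]
  [MonoidalCategory C] [SymmetricCategory C] [RigidCategory C] {F : Type w} [Field F]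
variable {M N X Y : C}

/-- the scalar `(-1)^j` -/
def sgn (F : Type w) [Field F] (j : ℤ) : F := ((j.negOnePow : ℤˣ) : ℤ)

lemma sgn_smul {V : Type*} [AddCommGroup V] [Module F V] (j : ℤ) (x : V) :
    j.negOnePow • x = sgn F j • x := by
  unfold sgn
  rw [Units.smul_def, Int.cast_smul_eq_zsmul]

lemma sgn_add (i j : ℤ) : sgn F (i + j) = sgn F i * sgn F j := by
  unfold sgn
  rw [Int.negOnePow_add]
  push_cast
  rfl

lemma sgn_mul_self (j : ℤ) : sgn F j * sgn F j = 1 := by
  rw [← sgn_add]
  unfold sgn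
  rw [Int.negOnePow_even _ (by exact ⟨j, rfl⟩)]
  simp

lemma sgn_sq (j : ℤ) : sgn F (j * j) = sgn F j := by
  unfold sgn
  congr 2
  rcases Int.even_or_odd j with h | h
  · rw [Int.negOnePow_even _ h, Int.negOnePow_even _ (h.mul_left j)]
  · rw [Int.negOnePow_odd _ h, Int.negOnePow_odd _ (h.mul h)]

lemma sgn_even {j : ℤ} (h : Even j) : sgn F j = 1 := by
  unfold sgn
  rw [Int.negOnePow_even _ h]
  simp

lemma sgn_neg (j : ℤ) : sgn F (-j) = sgn F j := by
  unfold sgn
  rw [Int.negOnePow_neg]

/-- the decomposition of `H_*(M)` -/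
noncomputable def grEquiv (W : MotivicHomology C F) (M : C) :
    (DirectSum ℤ fun j => W.gr M j) ≃ₗ[F] W.H.obj M :=
  LinearEquiv.ofBijective (DirectSum.coeLinearMap (W.gr M)) (W.isInternal M)

lemma grEquiv_lof (W : MotivicHomology C F) {j : ℤ} (x : W.gr M j) :
    grEquiv W M (DirectSum.lof F ℤ (fun j => W.gr M j) j x) = x :=
  DirectSum.coeLinearMap_lof (W.gr M) j x

/-- the sign operator on `H_*(M)` : `(-1)^j` on `H_j(M)` -/
noncomputable def sg (W : MotivicHomology C F) (M : C) : W.H.obj M →ₗ[F] W.H.obj M :=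
  (DirectSum.toModule F ℤ (W.H.obj M) (fun j => sgn F j • (W.gr M j).subtype)) ∘ₗ
    (grEquiv W M).symm.toLinearMap

lemma sg_apply (W : MotivicHomology C F) {j : ℤ} {x : W.H.obj M} (hx : x ∈ W.gr M j) :
    sg W M x = sgn F j • x := by
  have h2 : (grEquiv W M).symm x = DirectSum.lof F ℤ (fun j => W.gr M j) j ⟨x, hx⟩ := by
    rw [LinearEquiv.symm_apply_eq, grEquiv_lof]
  unfold sg
  rw [LinearMap.comp_apply, LinearEquiv.coe_coe, h2, DirectSum.toModule_lof]
  rfl

lemma sg_sg (W : MotivicHomology C F) (x : W.H.obj M) : sg W M (sg W M x) = x := by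
  induction x using W.induction with
  | h1 j x hx => rw [sg_apply W hx, map_smul, sg_apply W hx, smul_smul, sgn_mul_self, one_smul]
  | h2 x y hx hy => rw [map_add, map_add, hx, hy]

lemma map_sg (W : MotivicHomology C F) (f : M ⟶ N) (x : W.H.obj M) :
    (W.H.map f).hom (sg W M x) = sg W N ((W.H.map f).hom x) := by
  induction x using W.induction with
  | h1 j x hx => rw [sg_apply W hx, map_smul, sg_apply W (W.map_gr f _ _ hx)]
  | h2 x y hx hy => rw [map_add, map_add, map_add, map_add, hx, hy]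

lemma sg_cross (W : MotivicHomology C F) (x : W.H.obj M) (y : W.H.obj N) :
    sg W (M ⊗ N) (W.cross x y) = W.cross (sg W M x) (sg W N y) := by
  induction x using W.induction with
  | h1 i x hx =>
    induction y using W.induction with
    | h1 j y hy =>
      rw [sg_apply W hx, sg_apply W hy, sg_apply W (W.cross_mem hx hy), W.cross_smul_left,
        W.cross_smul_right, smul_smul, sgn_add]
    | h2 y z hy hz => rw [W.cross_add_right, map_add, hy, hz, map_add, W.cross_add_right]
  | h2 x z hx hz => rw [W.cross_add_left, map_add, hx, hz, map_add, W.cross_add_left]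

/-- the coordinate on the homology of the unit object -/
noncomputable def kap (W : MotivicHomology C F) : W.H.obj (𝟙_ C) →ₗ[F] F :=
  letI := W.monoidal
  (Functor.OplaxMonoidal.η W.H).hom

lemma kap_smul_unit (W : MotivicHomology C F) (z : W.H.obj (𝟙_ C)) : kap W z • W.unit = z := by
  let _ := W.monoidal
  have h1 : (Functor.OplaxMonoidal.η W.H) ≫ (Functor.LaxMonoidal.ε W.H) = 𝟙 _ :=
    Functor.Monoidal.η_ε W.H
  have h2 := congrArg (fun t => t.hom z) h1
  have h3 : (Functor.LaxMonoidal.ε W.H).hom ((Functor.OplaxMonoidal.η W.H).hom z) = z := h2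
  have h4 : (Functor.OplaxMonoidal.η W.H).hom z
      = ((Functor.OplaxMonoidal.η W.H).hom z : F) • (1 : F) := by
    rw [smul_eq_mul, mul_one]
  conv_rhs => rw [← h3, h4, map_smul]
  rfl

lemma kap_unit (W : MotivicHomology C F) : kap W W.unit = 1 := by
  let _ := W.monoidal
  have h1 : (Functor.LaxMonoidal.ε W.H) ≫ (Functor.OplaxMonoidal.η W.H) = 𝟙 _ :=
    Functor.Monoidal.ε_η W.H
  exact congrArg (fun t => t.hom (1 : F)) h1

/-- the duality pairing -/
noncomputable def ev (W : MotivicHomology C F) {M : C} (y : W.H.obj (Mᘁ)) :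
    W.H.obj M →ₗ[F] F where
  toFun x := kap W ((W.H.map (ε_ M (Mᘁ))).hom (W.cross y x))
  map_add' a b := by rw [W.cross_add_right, map_add, map_add]
  map_smul' c a := by rw [W.cross_smul_right, map_smul, map_smul]; rfl

lemma ev_apply (W : MotivicHomology C F) {M : C} (y : W.H.obj (Mᘁ)) (x : W.H.obj M) :
    ev W y x = kap W ((W.H.map (ε_ M (Mᘁ))).hom (W.cross y x)) := rfl

lemma ev_add (W : MotivicHomology C F) {M : C} (y y' : W.H.obj (Mᘁ)) (x : W.H.obj M) :
    ev W (y + y') x = ev W y x + ev W y' x := by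
  rw [ev_apply, ev_apply, ev_apply, W.cross_add_left, map_add, map_add]

lemma ev_zero_of_ne (W : MotivicHomology C F) {M : C} {i j : ℤ} (h : i + j ≠ 0)
    {y : W.H.obj (Mᘁ)} {x : W.H.obj M} (hy : y ∈ W.gr (Mᘁ) i) (hx : x ∈ W.gr M j) :
    (W.H.map (ε_ M (Mᘁ))).hom (W.cross y x) = 0 :=
  W.eq_zero_of_mem h (W.map_gr _ _ _ (W.cross_mem hy hx)) (W.unit_mem _)

/-- the braided evaluation -/
lemma ev_braid (W : MotivicHomology C F) {M : C} (x : W.H.obj M) (y : W.H.obj (Mᘁ)) :
    (W.H.map ((β_ M (Mᘁ)).hom ≫ ε_ M (Mᘁ))).hom (W.cross x y) = ev W y (sg W M x) • W.unit := by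
  induction x using W.induction with
  | h1 i x hx =>
    induction y using W.induction with
    | h1 j y hy =>
      rw [ev_apply, kap_smul_unit, sg_apply W hx, W.map_comp_apply, W.cross_swap hx hy, sgn_smul (F := F),
        map_smul, W.cross_smul_right, map_smul]
      by_cases h : j + i = 0
      · congr 1
        obtain rfl : j = -i := by omega
        rw [mul_neg, sgn_neg, sgn_sq]
      · rw [ev_zero_of_ne W h hy hx, smul_zero, smul_zero]
    | h2 y z hy hz => rw [W.cross_add_right, map_add, hy, hz, ev_add, add_smul]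
  | h2 x z hx hz => rw [W.cross_add_left, map_add, hx, hz, map_add, map_add, add_smul]

/-- every class is a sum of cross products -/
lemma exists_sum_cross (W : MotivicHomology C F) (z : W.H.obj (M ⊗ N)) :
    ∃ (n : ℕ) (e : Fin n → W.H.obj M) (e' : Fin n → W.H.obj N),
      z = ∑ k, W.cross (e k) (e' k) := by
  induction z using W.cross_induction with
  | h1 i j x hx y hy => exact ⟨1, fun _ => x, fun _ => y, by simp⟩
  | h2 x y hx hy =>
    obtain ⟨n, e, e', rfl⟩ := hx
    obtain ⟨m, g, g', rfl⟩ := hy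
    refine ⟨n + m, Fin.append e g, Fin.append e' g', ?_⟩
    rw [Fin.sum_univ_add]
    simp

/-- cross product as a linear map of the first variable -/
noncomputable def crossL (W : MotivicHomology C F) (M : C) {N : C} (y : W.H.obj N) :
    W.H.obj M →ₗ[F] W.H.obj (M ⊗ N) where
  toFun x := W.cross x y
  map_add' a b := W.cross_add_left a b y
  map_smul' c a := W.cross_smul_left c a y

/-- contraction with `y ∈ H_*(Mᘁ)` -/
noncomputable def ctr (W : MotivicHomology C F) (Y M : C) (y : W.H.obj (Mᘁ)) :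
    W.H.obj (Y ⊗ M) →ₗ[F] W.H.obj Y :=
  (W.H.map ((α_ Y M (Mᘁ)).hom ≫ (Y ◁ ((β_ M (Mᘁ)).hom ≫ ε_ M (Mᘁ))) ≫ (ρ_ Y).hom)).hom ∘ₗ
    crossL W (Y ⊗ M) y

lemma ctr_cross (W : MotivicHomology C F) (y : W.H.obj (Mᘁ)) (a : W.H.obj Y) (m : W.H.obj M) :
    ctr W Y M y (W.cross a m) = ev W y (sg W M m) • a := by
  change (W.H.map _).hom (W.cross (W.cross a m) y) = _
  rw [W.map_comp_apply, W.map_comp_apply, W.cross_assoc, W.map_whiskerLeft_cross, ev_braid,
    W.cross_smul_right, map_smul, W.cross_unit]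

/-- a copairing of `H_*(M)` -/
lemma exists_copairing (W : MotivicHomology C F) (M : C) :
    ∃ (n : ℕ) (e : Fin n → W.H.obj M) (e' : Fin n → W.H.obj (Mᘁ)),
      (W.H.map (η_ M (Mᘁ))).hom W.unit = ∑ k, W.cross (e k) (e' k) ∧
      ∀ x : W.H.obj M, ∑ k, ev W (e' k) x • e k = x := by
  obtain ⟨n, e, e', h⟩ := exists_sum_cross W ((W.H.map (η_ M (Mᘁ))).hom W.unit)
  refine ⟨n, e, e', h, fun x => ?_⟩
  have h1 := ExactPairing.evaluation_coevaluation M (Mᘁ)
  have h2 := congrArg (fun t => (W.H.map t).hom (W.cross W.unit x)) h1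
  simp only [W.map_comp_apply] at h2
  rw [W.map_whiskerRight_cross, h, W.unit_cross, W.cross_unit'] at h2
  have h3 : ∀ (s : Finset (Fin n)), W.cross (∑ k ∈ s, W.cross (e k) (e' k)) x
      = ∑ k ∈ s, W.cross (W.cross (e k) (e' k)) x := by
    intro s
    exact map_sum (crossL W (M ⊗ Mᘁ) x) _ _
  rw [h3, map_sum, map_sum] at h2
  have h4 := congrArg (W.H.map (ρ_ M).hom).hom h2
  rw [W.cross_unit, map_sum] at h4
  conv_rhs => rw [← h4]
  apply Finset.sum_congr rfl
  intro k _
  rw [W.cross_assoc, W.map_whiskerLeft_cross]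
  have h5 : (W.H.map (ε_ M (Mᘁ))).hom (W.cross (e' k) x) = ev W (e' k) x • W.unit := by
    rw [ev_apply, kap_smul_unit]
  rw [h5, W.cross_smul_right, map_smul, W.cross_unit]

/-- the supertrace of `H_*(f)` -/
noncomputable def str (W : MotivicHomology C F) {M : C} (f : M ⟶ M) : F :=
  LinearMap.trace F (W.H.obj M) ((W.H.map f).hom ∘ₗ sg W M)

lemma str_comm (W : MotivicHomology C F) {M N : C} (f : M ⟶ N) (g : N ⟶ M) :
    str W (f ≫ g) = str W (g ≫ f) := by
  have hM := W.finite M
  have hN := W.finite N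
  unfold str
  have h1 : (W.H.map (f ≫ g)).hom ∘ₗ sg W M = (W.H.map g).hom ∘ₗ ((W.H.map f).hom ∘ₗ sg W M) := by
    ext x; simp
  have h2 : (W.H.map (g ≫ f)).hom ∘ₗ sg W N = ((W.H.map f).hom ∘ₗ sg W M) ∘ₗ (W.H.map g).hom := by
    ext x
    simp only [LinearMap.comp_apply, W.map_comp_apply]
    rw [map_sg]
  rw [h1, h2, LinearMap.trace_comp_comm']

/-- **Partial traces**: `str (ptr f) = str f`. -/
theorem str_ptr (W : MotivicHomology C F) (X M : C) (f : X ⊗ M ⟶ X ⊗ M) :
    str W (ptr X X M f) = str W f := by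
  classical
  have hX := W.finite X
  have hXM := W.finite (X ⊗ M)
  obtain ⟨n, e, e', hη, he⟩ := exists_copairing W M
  let b := Module.finBasis F (W.H.obj X)
  have hptr : ∀ x, (W.H.map (ptr X X M f)).hom x
      = ∑ k, ctr W X M (e' k) ((W.H.map f).hom (W.cross x (e k))) := by
    intro x
    unfold ptr
    rw [W.map_comp_apply, W.cross_unit', W.map_comp_apply, W.map_whiskerLeft_cross, hη,
      W.map_comp_apply]
    have h3 : W.cross x (∑ k, W.cross (e k) (e' k)) = ∑ k, W.cross x (W.cross (e k) (e' k)) := by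
      have : ∀ (s : Finset (Fin n)), W.cross x (∑ k ∈ s, W.cross (e k) (e' k))
          = ∑ k ∈ s, W.cross x (W.cross (e k) (e' k)) := by
        intro s
        induction s using Finset.induction_on with
        | empty => simp [W.cross_zero_right]
        | insert a s ha ih => rw [Finset.sum_insert ha, Finset.sum_insert ha, W.cross_add_right, ih]
      exact this _
    rw [h3, map_sum, W.map_comp_apply, map_sum, map_sum]
    apply Finset.sum_congr rfl
    intro k _
    rw [W.cross_assoc', W.map_whiskerRight_cross]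
    rfl
  have hb : ∀ x : W.H.obj X, ∑ j, (b.coord j) x • b j = x := fun x => b.sum_repr x
  -- a frame of `H_*(X ⊗ M)`
  have hframe : ∀ z : W.H.obj (X ⊗ M),
      ∑ p : Fin _ × Fin n, ((b.coord p.1) ∘ₗ ctr W X M (e' p.2)) z •
        W.cross (b p.1) (sg W M (e p.2)) = z := by
    intro z
    induction z using W.cross_induction with
    | h1 i j x _ m _ =>
      have h1 : ∀ p : Fin (Module.finrank F (W.H.obj X)) × Fin n,
          ((b.coord p.1) ∘ₗ ctr W X M (e' p.2)) (W.cross x m) •
            W.cross (b p.1) (sg W M (e p.2))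
          = W.cross ((b.coord p.1) x • b p.1) (sg W M (ev W (e' p.2) (sg W M m) • e p.2)) := by
        intro p
        rw [LinearMap.comp_apply, ctr_cross, map_smul, map_smul, W.cross_smul_left,
          W.cross_smul_right, smul_smul, smul_eq_mul, mul_comm]
      rw [Finset.sum_congr rfl (fun p _ => h1 p), Fintype.sum_prod_type]
      have h2 : ∀ (a : W.H.obj X), ∑ k, W.cross a (sg W M (ev W (e' k) (sg W M m) • e k))
          = W.cross a m := by
        intro a
        have h3 : ∀ (s : Finset (Fin n)),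
            ∑ k ∈ s, W.cross a (sg W M (ev W (e' k) (sg W M m) • e k))
              = W.cross a (sg W M (∑ k ∈ s, ev W (e' k) (sg W M m) • e k)) := by
          intro s
          induction s using Finset.induction_on with
          | empty => simp [W.cross_zero_right]
          | insert k s hk ih =>
            rw [Finset.sum_insert hk, Finset.sum_insert hk, map_add, W.cross_add_right, ih]
        rw [h3, he, sg_sg]
      simp only [h2]
      have h4 : ∀ (s : Finset (Fin (Module.finrank F (W.H.obj X)))),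
          ∑ j ∈ s, W.cross ((b.coord j) x • b j) m = W.cross (∑ j ∈ s, (b.coord j) x • b j) m :=
        fun s => (map_sum (crossL W X m) _ _).symm
      rw [h4, hb]
    | h2 z z' hz hz' =>
      simp only [map_add, add_smul, Finset.sum_add_distrib]
      rw [hz, hz']
  unfold str
  rw [trace_frame (fun j => b j) (fun j => b.coord j) hb,
    trace_frame _ _ hframe, Fintype.sum_prod_type]
  apply Finset.sum_congr rfl
  intro j _
  rw [LinearMap.comp_apply, hptr, map_sum]
  apply Finset.sum_congr rfl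
  intro k _
  rw [LinearMap.comp_apply, LinearMap.comp_apply, sg_cross, sg_sg]

section rational

lemma str_id_unit (W : MotivicHomology C F) : str W (𝟙 (𝟙_ C)) = 1 := by
  have h0 := W.finite (𝟙_ C)
  unfold str
  rw [trace_frame (ι := Unit) (fun _ => W.unit) (fun _ => kap W) (fun x => by
    simp [kap_smul_unit])]
  simp only [Finset.univ_unique, Finset.sum_singleton, LinearMap.comp_apply]
  rw [sg_apply W (W.unit_mem _), W.map_id_apply, map_smul, kap_unit, sgn_even (by simp)]
  simp

/-- the coefficient field has characteristic 0 -/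
lemma charZero (W : MotivicHomology C F) : CharZero F := by
  have hadd := W.additive
  refine charZero_of_inj_zero (fun n hn => ?_)
  by_contra h0
  have h1 : (n • 𝟙 (𝟙_ C)) ≫ ((n : ℚ)⁻¹ • 𝟙 (𝟙_ C)) = 𝟙 _ := by
    have : (n • 𝟙 (𝟙_ C)) = (n : ℚ) • 𝟙 (𝟙_ C) := (Nat.cast_smul_eq_nsmul ℚ n _).symm
    rw [this, Linear.smul_comp, Linear.comp_smul, smul_smul, Category.comp_id,
      mul_inv_cancel₀ (by exact_mod_cast h0), one_smul]
  have h2 : W.H.map (n • 𝟙 (𝟙_ C)) = 0 := by
    rw [Functor.map_nsmul]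
    ext x
    have : (n • W.H.map (𝟙 (𝟙_ C))).hom x = n • (W.H.map (𝟙 (𝟙_ C))).hom x := rfl
    rw [this, ← Nat.cast_smul_eq_nsmul F, hn, zero_smul]
    rfl
  have h3 := congrArg (fun t => (W.H.map t).hom W.unit) h1
  simp only [W.map_comp_apply, W.map_id_apply, h2] at h3
  have h4 : (0 : W.H.obj (𝟙_ C)) = W.unit := by
    rw [← h3]
    exact (map_zero _).symm
  have h5 := kap_unit W
  rw [← h4, map_zero] at h5
  exact zero_ne_one h5

lemma map_smul_apply (W : MotivicHomology C F) (q : ℚ) (f : M ⟶ N) (x : W.H.obj M) :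
    (W.H.map (q • f)).hom x = (q : F) • (W.H.map f).hom x := by
  have hadd := W.additive
  have hc := charZero W
  have h1 : ∀ (n : ℤ) (g : M ⟶ N), (W.H.map (n • g)).hom x = (n : F) • (W.H.map g).hom x := by
    intro n g
    rw [Functor.map_zsmul]
    have : (n • W.H.map g).hom x = n • (W.H.map g).hom x := rfl
    rw [this, Int.cast_smul_eq_zsmul]
  have h2 : (q.den : ℤ) • (q • f) = q.num • f := by
    rw [← Int.cast_smul_eq_zsmul ℚ, ← Int.cast_smul_eq_zsmul ℚ, smul_smul]
    congr 1
    have := Rat.mul_den_eq_num q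
    push_cast
    rw [mul_comm]
    exact this
  have h3 := h1 q.den (q • f)
  rw [h2, h1] at h3
  have h4 : ((q.den : ℤ) : F) ≠ 0 := by
    have := q.den_nz
    exact_mod_cast this
  have h5 : (q : F) = (q.num : F) / ((q.den : ℤ) : F) := by
    rw [Rat.cast_def]
    push_cast
    rfl
  rw [h5, div_eq_inv_mul, ← smul_smul, h3, smul_smul, inv_mul_cancel₀ h4, one_smul]

/-- **Lefschetz trace formula**: supertraces of algebraic endomorphisms are rational. -/
theorem str_rat (W : MotivicHomology C F) (f : M ⟶ M) : ∃ q : ℚ, str W f = (q : F) := by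
  have h1 : str W f = str W ((λ_ M).hom ≫ f ≫ (λ_ M).inv) := by
    rw [str_comm]
    simp
  obtain ⟨q, hq⟩ := W.endUnit (ptr (𝟙_ C) (𝟙_ C) M ((λ_ M).hom ≫ f ≫ (λ_ M).inv))
  refine ⟨q, ?_⟩
  rw [h1, ← str_ptr, hq]
  have h2 : str W (q • 𝟙 (𝟙_ C)) = (q : F) * str W (𝟙 (𝟙_ C)) := by
    unfold str
    have : (W.H.map (q • 𝟙 (𝟙_ C))).hom ∘ₗ sg W (𝟙_ C)
        = (q : F) • ((W.H.map (𝟙 (𝟙_ C))).hom ∘ₗ sg W (𝟙_ C)) := by
      ext x
      simp only [LinearMap.comp_apply, LinearMap.smul_apply]
      rw [map_smul_apply]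
    rw [this, map_smul, smul_eq_mul]
  rw [h2, str_id_unit, mul_one]

end rational

end Pool.Agent.Helper64.MAD
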